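import Pool.Agent.Lib_MP_112ba8_w.Assembly

/-!
Lower bounds for the high integer moments of the Riemann zeta function on the critical line.

With `a_k` the usual arithmetic factor, the constant `g_k` in
`M_k(T) ~ (g_k a_k / (k^2)!) (log T)^(k^2)` satisfies `g_k ≥ A^(k^2)` for every `A < 2 e^γ`
and all `k ≥ k₀(A)`: unconditionally the lower bound holds for the moments themselves.
-/

namespace Pool.Agent.Results.MP_112ba8_nt.HighMoments

open Filter Topology Pool.Agent.ZetaMoment

/-- The Euler factor at `p` of the arithmetic factor `a_k`, that is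
`(1 - 1/p)^(k^2) * ∑_{m ≥ 0} d_k(p^m)^2 / p^m`, with `d_k(p^m) = binom(m+k-1, m)`. -/
noncomputable def localFactor (k : ℕ) (p : Nat.Primes) : ℝ :=
  (1 - 1 / ((p : ℕ) : ℝ)) ^ (k ^ 2) *
    ∑' m : ℕ, ((m + k - 1).choose m : ℝ) ^ 2 / ((p : ℕ) : ℝ) ^ m

/-- The arithmetic factor `a_k = ∏_p (1 - 1/p)^(k^2) ∑_{m ≥ 0} d_k(p^m)^2 / p^m`. -/
noncomputable def arithFactor (k : ℕ) : ℝ := ∏' p : Nat.Primes, localFactor k p

/-- The `2k`-th moment `M_k(T) = (1/T) ∫_0^T |ζ(1/2+it)|^(2k) dt`. -/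
noncomputable def zetaMoment (k : ℕ) (T : ℝ) : ℝ :=
  (1 / T) * ∫ t in (0 : ℝ)..T, ‖riemannZeta (1 / 2 + t * Complex.I)‖ ^ (2 * k)

lemma arithFactor_eq (k : ℕ) : arithFactor k = aG (Fin k) := (aG_hasProd k).tprod_eq

/-- For every `k` the product defining `a_k` converges to a positive number, and for every
`A < 2 e^γ` (`γ` being Euler's constant) there is `K` such that for all `k ≥ K` and all
`T ≥ T₀(k)`, `M_k(T) ≥ A^(k^2) * a_k / (k^2)! * (log T)^(k^2)`. -/
theorem result :
    (∀ k : ℕ, Multipliable (localFactor k) ∧ 0 < arithFactor k) ∧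
    ∀ A : ℝ, 0 < A → A < 2 * Real.exp Real.eulerMascheroniConstant →
      ∃ K : ℕ, ∀ k : ℕ, K ≤ k → ∃ T₀ : ℝ, ∀ T : ℝ, T₀ ≤ T →
        A ^ (k ^ 2) * (arithFactor k / (k ^ 2).factorial) * Real.log T ^ (k ^ 2) ≤
          zetaMoment k T := by
  refine ⟨fun k => ⟨(aG_hasProd k).multipliable, ?_⟩, ?_⟩
  · rw [arithFactor_eq]; exact Real.exp_pos _
  intro A hA0 hA
  have hlogA : Real.log A < Real.eulerMascheroniConstant + Real.log 2 := by
    have h := Real.log_lt_log hA0 hA
    rw [Real.log_mul (by norm_num) (Real.exp_pos _).ne', Real.log_exp] at h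
    linarith
  have hη : 0 < Real.eulerMascheroniConstant + Real.log 2 - Real.log A := by linarith
  obtain ⟨K, hK⟩ := eventually_atTop.mp (Pool.Agent.MomW.bound_w hη)
  refine ⟨max K 1, fun k hk => ?_⟩
  have hk1 : K ≤ k := le_trans (le_max_left _ _) hk
  have hk2 : 1 ≤ k := le_trans (le_max_right _ _) hk
  obtain ⟨T₀, hT₀⟩ := eventually_atTop.mp (hK k hk1)
  refine ⟨max T₀ 1, fun T hT => ?_⟩
  have h4 := hT₀ T (le_trans (le_max_left _ _) hT)
  have hT1 : 1 ≤ T := le_trans (le_max_right _ _) hT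
  refine le_trans ?_ h4
  have hlogT : 0 ≤ Real.log T := Real.log_nonneg hT1
  rw [arithFactor_eq, show k * k = k ^ 2 by ring]
  refine mul_le_mul_of_nonneg_right ?_ (by positivity)
  set n : ℕ := k ^ 2 with hn
  have hn0 : 0 < (n : ℝ) := by
    have : 0 < n := by positivity
    exact_mod_cast this
  have hcast : (k : ℝ) ^ 2 = n := by rw [hn]; push_cast; ring
  rw [hcast]
  have hfac := Real.pow_div_factorial_le_exp (n : ℝ) hn0.le n
  have haG : 0 < aG (Fin k) := Real.exp_pos _
  have hfp : (0 : ℝ) < n.factorial := by exact_mod_cast n.factorial_pos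
  have e1 : Real.exp (n * (1 + Real.eulerMascheroniConstant + Real.log 2 -
      (Real.eulerMascheroniConstant + Real.log 2 - Real.log A) - Real.log n)) =
      Real.exp n * A ^ n / (n : ℝ) ^ n := by
    have : (n : ℝ) * (1 + Real.eulerMascheroniConstant + Real.log 2 -
      (Real.eulerMascheroniConstant + Real.log 2 - Real.log A) - Real.log n) =
        n + n * Real.log A - n * Real.log n := by ring
    rw [this, Real.exp_sub, Real.exp_add, Real.exp_nat_mul, Real.exp_nat_mul,
      Real.exp_log hA0, Real.exp_log hn0]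
  rw [e1]
  have e2 : 1 / (n.factorial : ℝ) ≤ Real.exp n / (n : ℝ) ^ n := by
    rw [div_le_div_iff₀ hfp (by positivity), one_mul]
    rwa [div_le_iff₀ hfp] at hfac
  calc A ^ n * (aG (Fin k) / n.factorial)
      = aG (Fin k) * A ^ n * (1 / n.factorial) := by ring
    _ ≤ aG (Fin k) * A ^ n * (Real.exp n / (n : ℝ) ^ n) := by gcongr
    _ = _ := by ring

end Pool.Agent.Results.MP_112ba8_nt.HighMoments
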