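import Pool.Agent.Lib_MP_112ba8_t.FinalT
import Pool.Agent.Lib_MP_112ba8.Final

/-!
An unconditional lower bound for the sixth moment of the Riemann zeta function on the critical
line: with `a_3` the usual arithmetic factor,
`(1/T) ∫_0^T |ζ(1/2+it)|^6 dt ≥ c * a_3 / 9! * (log T)^9` for all large `T`, for every
constant `c < 16809529 / 458752 = 36.64...`.
-/

namespace Pool.Agent.Results.MP_112ba8_nt.SixthMoment

open Filter Topology Pool.Agent.ZetaMoment Pool.Agent.EvenMoment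

/-- The Euler factor at `p` of the arithmetic factor `a_k`, that is
`(1 - 1/p)^(k^2) * ∑_{m ≥ 0} d_k(p^m)^2 / p^m`, with `d_k(p^m) = binom(m+k-1, m)`. -/
noncomputable def localFactor (k : ℕ) (p : Nat.Primes) : ℝ :=
  (1 - 1 / ((p : ℕ) : ℝ)) ^ (k ^ 2) *
    ∑' m : ℕ, ((m + k - 1).choose m : ℝ) ^ 2 / ((p : ℕ) : ℝ) ^ m

/-- The arithmetic factor `a_k = ∏_p (1 - 1/p)^(k^2) ∑_{m ≥ 0} d_k(p^m)^2 / p^m`. -/
noncomputable def arithFactor (k : ℕ) : ℝ := ∏' p : Nat.Primes, localFactor k p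

/-- The `2k`-th moment `M_k(T) = (1/T) ∫_0^T |ζ(1/2+it)|^(2k) dt`. -/
noncomputable def zetaMoment (k : ℕ) (T : ℝ) : ℝ :=
  (1 / T) * ∫ t in (0 : ℝ)..T, ‖riemannZeta (1 / 2 + t * Complex.I)‖ ^ (2 * k)

lemma arithFactor_eq (k : ℕ) : arithFactor k = ar k := (aG_hasProd k).tprod_eq

/-- The product defining `a_3` converges to a positive number, and for every real
`c < 16809529 / 458752` there is `T₀` such that for all `T ≥ T₀`, `M_3(T) ≥ c * a_3 / 9! * (log T)^9`. -/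
theorem result :
    (Multipliable (localFactor 3) ∧ 0 < arithFactor 3) ∧
    ∀ c : ℝ, c < 16809529 / 458752 → ∃ T₀ : ℝ, ∀ T : ℝ, T₀ ≤ T →
      c * (arithFactor 3 / (Nat.factorial 9)) * Real.log T ^ 9 ≤ zetaMoment 3 T := by
  refine ⟨⟨(aG_hasProd 3).multipliable, ?_⟩, ?_⟩
  · rw [arithFactor_eq]; exact Real.exp_pos _
  intro c hc
  obtain ⟨T₀, hT₀⟩ := eventually_atTop.mp (Pool.Agent.SixT.const_t hc)
  refine ⟨T₀, fun T hT => ?_⟩
  rw [arithFactor_eq]
  exact hT₀ T hT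

end Pool.Agent.Results.MP_112ba8_nt.SixthMoment
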